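import Mathlib

set_option autoImplicit false
open Filter Topology

namespace Pool.Agent.Results.MP_5e6e69_pr.FisherUpper

/-- The n-step self-avoiding walks on the lattice from the origin. -/
def walks (d n : ℕ) : Set (Fin (n + 1) → (Fin d → ℤ)) :=
  {w | w 0 = 0 ∧ Function.Injective w ∧
    ∀ i : Fin n, ∑ j : Fin d, |w i.succ j - w i.castSucc j| = 1}

/-- Number of n-step self-avoiding walks. -/
noncomputable def numWalks (d n : ℕ) : ℕ := (walks d n).ncard

/-- Number of n-step self-avoiding walks ending at z. -/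
noncomputable def numWalksTo (d n : ℕ) (z : Fin d → ℤ) : ℕ :=
  {w ∈ walks d n | w (Fin.last n) = z}.ncard

/-- Square of the Euclidean norm. -/
noncomputable def sqNorm {d : ℕ} (z : Fin d → ℤ) : ℝ := ∑ j, ((z j : ℝ)) ^ 2

/-- Mean square displacement under the uniform measure. -/
noncomputable def meanSq (d n : ℕ) : ℝ :=
  (∑ᶠ w ∈ walks d n, sqNorm (w (Fin.last n))) / (numWalks d n : ℝ)

/-- Critical two point function. -/
noncomputable def green (d : ℕ) (μ : ℝ) (z : Fin d → ℤ) : ℝ :=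
  ∑' n : ℕ, (numWalksTo d n z : ℝ) / μ ^ n

/-- Coordinates are bounded by the number of steps. -/
lemma walk_bound {d n : ℕ} {w : Fin (n + 1) → (Fin d → ℤ)} (hw : w ∈ walks d n) :
    ∀ k : ℕ, ∀ hk : k < n + 1, ∀ j, |w ⟨k, hk⟩ j| ≤ k := by
  intro k
  induction k with
  | zero =>
    intro hk j
    have h0 : w ⟨0, hk⟩ = 0 := hw.1
    rw [h0]; simp
  | succ k ih =>
    intro hk j
    have hk' : k < n := by omega
    have h1 := hw.2.2 ⟨k, hk'⟩
    have h2 : |w ⟨k + 1, hk⟩ j - w ⟨k, by omega⟩ j| ≤ 1 := by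
      have h3 : |w (Fin.succ ⟨k, hk'⟩) j - w (Fin.castSucc ⟨k, hk'⟩) j| ≤
          ∑ j : Fin d, |w (Fin.succ ⟨k, hk'⟩) j - w (Fin.castSucc ⟨k, hk'⟩) j| :=
        Finset.single_le_sum (f := fun j => |w (Fin.succ ⟨k, hk'⟩) j - w (Fin.castSucc ⟨k, hk'⟩) j|)
          (fun i _ => abs_nonneg _) (Finset.mem_univ j)
      rw [h1] at h3
      exact h3
    have h4 := ih (by omega) j
    have h5 : |w ⟨k + 1, hk⟩ j| ≤ |w ⟨k + 1, hk⟩ j - w ⟨k, by omega⟩ j| + |w ⟨k, by omega⟩ j| := by
      have := abs_add_le (w ⟨k + 1, hk⟩ j - w ⟨k, by omega⟩ j) (w ⟨k, by omega⟩ j)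
      simpa using this
    push_cast
    linarith

lemma walks_finite (d n : ℕ) : (walks d n).Finite := by
  have hfin : (Set.pi Set.univ (fun _ : Fin (n + 1) =>
      (Set.pi Set.univ (fun _ : Fin d => (Set.Icc (-(n : ℤ)) n))))).Finite := by
    apply Set.Finite.pi
    intro i
    apply Set.Finite.pi
    intro j
    exact Set.finite_Icc _ _
  refine hfin.subset ?_
  intro w hw
  simp only [Set.mem_pi, Set.mem_univ, forall_true_left, Set.mem_Icc]
  intro i j
  have := walk_bound hw i.1 i.2 j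
  have h2 : (i.1 : ℤ) ≤ n := by have := i.2; omega
  rw [abs_le] at this
  constructor <;> linarith [this.1, this.2]

/-- The straight walk. -/
def straight (d n : ℕ) : Fin (n + 1) → (Fin (d + 1) → ℤ) := fun i j => if j = 0 then (i.1 : ℤ) else 0

lemma straight_mem (d n : ℕ) : straight d n ∈ walks (d + 1) n := by
  refine ⟨?_, ?_, ?_⟩
  · funext j; simp [straight]
  · intro a b hab
    have := congrFun hab 0
    simp only [straight, if_true] at this
    exact Fin.ext (by exact_mod_cast this)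
  · intro i
    rw [Finset.sum_eq_single (0 : Fin (d + 1))]
    · simp [straight]
    · intro b _ hb
      simp [straight, hb]
    · simp

lemma numWalks_pos (d n : ℕ) : 0 < numWalks (d + 1) n := by
  unfold numWalks
  rw [Set.ncard_pos (walks_finite _ _)]
  exact ⟨_, straight_mem d n⟩

/-- Splitting a walk gives two walks, so the counts are submultiplicative. -/
lemma submult (d m n : ℕ) : numWalks d (m + n) ≤ numWalks d m * numWalks d n := by
  unfold numWalks
  rw [← Set.ncard_prod]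
  let f : (Fin (m + n + 1) → (Fin d → ℤ)) →
      (Fin (m + 1) → (Fin d → ℤ)) × (Fin (n + 1) → (Fin d → ℤ)) := fun w =>
    (fun i => w ⟨i.1, by omega⟩, fun i => w ⟨m + i.1, by omega⟩ - w ⟨m, by omega⟩)
  have hfin := (walks_finite d m).prod (walks_finite d n)
  apply Set.ncard_le_ncard_of_injOn f (ht := hfin)
  · intro w hw
    refine Set.mk_mem_prod ?_ ?_
    · refine ⟨hw.1, ?_, ?_⟩
      · intro a b hab
        have := hw.2.1 hab
        exact Fin.ext (by simpa using this)
      · intro i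
        exact hw.2.2 ⟨i.1, by omega⟩
    · refine ⟨?_, ?_, ?_⟩
      · simp
      · intro a b hab
        simp only [sub_left_inj] at hab
        have := hw.2.1 hab
        exact Fin.ext (by simpa using this)
      · intro i
        have := hw.2.2 ⟨m + i.1, by omega⟩
        simpa [add_assoc] using this
  · intro w hw w' hw' h
    simp only [f, Prod.mk.injEq] at h
    obtain ⟨h1, h2⟩ := h
    have hm : w ⟨m, by omega⟩ = w' ⟨m, by omega⟩ := congrFun h1 ⟨m, by omega⟩
    funext i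
    by_cases hi : i.1 ≤ m
    · exact congrFun h1 ⟨i.1, by omega⟩
    · have h3 := congrFun h2 ⟨i.1 - m, by omega⟩
      have h4 : (⟨m + (i.1 - m), by omega⟩ : Fin (m + n + 1)) = i := Fin.ext (by simp; omega)
      simp only [h4, hm, sub_left_inj] at h3
      exact h3

lemma numWalks_mul_le (d n k : ℕ) : numWalks d (n * (k + 1)) ≤ numWalks d n ^ (k + 1) := by
  induction k with
  | zero => simp
  | succ k ih =>
    have : n * (k + 1 + 1) = n * (k + 1) + n := by ring
    rw [this]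
    calc numWalks d (n * (k + 1) + n) ≤ numWalks d (n * (k + 1)) * numWalks d n := submult _ _ _
      _ ≤ numWalks d n ^ (k + 1) * numWalks d n := Nat.mul_le_mul_right _ ih
      _ = _ := by ring

/-- the growth constant is at least one and its powers are below the counts -/
lemma mu_pow_le (d : ℕ) (μ : ℝ)
    (hμ : Tendsto (fun n : ℕ => (numWalks (d + 1) n : ℝ) ^ ((1 : ℝ) / (n : ℝ))) atTop (𝓝 μ)) :
    1 ≤ μ ∧ ∀ n : ℕ, 1 ≤ n → μ ^ n ≤ (numWalks (d + 1) n : ℝ) := by
  have h1 : 1 ≤ μ := by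
    apply ge_of_tendsto' hμ
    intro n
    apply Real.one_le_rpow
    · exact_mod_cast numWalks_pos d n
    · positivity
  refine ⟨h1, ?_⟩
  intro n hn
  have hsub : Tendsto (fun k : ℕ => n * (k + 1)) atTop atTop := by
    apply tendsto_atTop_mono (f := fun k => k)
    · intro k; nlinarith
    · exact tendsto_id
  have h2 := hμ.comp hsub
  have h3 : μ ≤ (numWalks (d + 1) n : ℝ) ^ ((1 : ℝ) / (n : ℝ)) := by
    apply le_of_tendsto' h2
    intro k
    simp only [Function.comp]
    have hc : (numWalks (d + 1) (n * (k + 1)) : ℝ) ≤ (numWalks (d + 1) n : ℝ) ^ (k + 1) := by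
      exact_mod_cast numWalks_mul_le (d + 1) n k
    calc (numWalks (d + 1) (n * (k + 1)) : ℝ) ^ ((1 : ℝ) / ((n * (k + 1) : ℕ) : ℝ))
        ≤ ((numWalks (d + 1) n : ℝ) ^ (k + 1)) ^ ((1 : ℝ) / ((n * (k + 1) : ℕ) : ℝ)) := by
          apply Real.rpow_le_rpow (by positivity) hc (by positivity)
      _ = (numWalks (d + 1) n : ℝ) ^ ((1 : ℝ) / (n : ℝ)) := by
          rw [← Real.rpow_natCast, ← Real.rpow_mul (by positivity)]
          congr 1
          have hn' : (n : ℝ) ≠ 0 := by positivity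
          have hk' : ((k : ℝ) + 1) ≠ 0 := by positivity
          push_cast
          field_simp
  have hn' : (n : ℝ) ≠ 0 := by positivity
  calc μ ^ n ≤ ((numWalks (d + 1) n : ℝ) ^ ((1 : ℝ) / (n : ℝ))) ^ n := by
        apply pow_le_pow_left₀ (by linarith) h3
    _ = (numWalks (d + 1) n : ℝ) := by
        rw [← Real.rpow_natCast, ← Real.rpow_mul (by positivity)]
        rw [one_div, inv_mul_cancel₀ hn', Real.rpow_one]


/-- Euclidean norm -/
noncomputable def eNorm {d : ℕ} (z : Fin d → ℤ) : ℝ := Real.sqrt (sqNorm z)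

/-- boxes -/
noncomputable def box (d R : ℕ) : Finset (Fin d → ℤ) := Fintype.piFinset (fun _ => Finset.Icc (-(R : ℤ)) R)

lemma mem_box {d R : ℕ} {z : Fin d → ℤ} : z ∈ box d R ↔ ∀ j, |z j| ≤ R := by
  simp [box, Fintype.mem_piFinset, abs_le]

lemma card_box (d R : ℕ) : (box d R).card = (2 * R + 1) ^ d := by
  simp only [box, Fintype.card_piFinset, Int.card_Icc, Finset.prod_const, Finset.card_univ,
    Fintype.card_fin]
  congr 1
  omega

lemma sqNorm_nonneg {d : ℕ} (z : Fin d → ℤ) : 0 ≤ sqNorm z :=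
  Finset.sum_nonneg (fun _ _ => sq_nonneg _)

lemma eNorm_nonneg {d : ℕ} (z : Fin d → ℤ) : 0 ≤ eNorm z := Real.sqrt_nonneg _

lemma sq_le_sqNorm {d : ℕ} (z : Fin d → ℤ) (j : Fin d) : ((z j : ℝ)) ^ 2 ≤ sqNorm z :=
  Finset.single_le_sum (f := fun j => ((z j : ℝ)) ^ 2) (fun _ _ => sq_nonneg _) (Finset.mem_univ j)

lemma abs_le_eNorm {d : ℕ} (z : Fin d → ℤ) (j : Fin d) : |(z j : ℝ)| ≤ eNorm z := by
  unfold eNorm
  rw [← Real.sqrt_sq_eq_abs]
  exact Real.sqrt_le_sqrt (sq_le_sqNorm z j)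

lemma eNorm_le_of_mem_box {d R : ℕ} {z : Fin (d + 1) → ℤ} (hz : z ∈ box (d + 1) R) :
    eNorm z ≤ (d + 1) * R := by
  unfold eNorm
  apply Real.sqrt_le_iff.mpr
  refine ⟨by positivity, ?_⟩
  have h1 : sqNorm z ≤ ∑ _j : Fin (d + 1), (R : ℝ) ^ 2 := by
    apply Finset.sum_le_sum
    intro j _
    have := mem_box.mp hz j
    have h2 : |(z j : ℝ)| ≤ R := by exact_mod_cast this
    calc ((z j : ℝ)) ^ 2 = |(z j : ℝ)| ^ 2 := (sq_abs _).symm
      _ ≤ _ := pow_le_pow_left₀ (abs_nonneg _) h2 2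
  have h3 : ∑ _j : Fin (d + 1), (R : ℝ) ^ 2 = (d + 1) * (R : ℝ) ^ 2 := by simp
  rw [h3] at h1
  have : (0 : ℝ) ≤ R := by positivity
  have h4 : (1 : ℝ) ≤ (d + 1) := by have : (0 : ℝ) ≤ d := by positivity
                                    linarith
  nlinarith [mul_nonneg (mul_nonneg (by positivity : (0:ℝ) ≤ (d + 1)) (by positivity : (0:ℝ) ≤ d)) (sq_nonneg (R : ℝ))]

lemma eNorm_ge_of_not_mem {d R : ℕ} {z : Fin d → ℤ} (hz : z ∉ box d R) :
    ((R : ℝ) + 1) ≤ eNorm z := by
  rw [mem_box] at hz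
  push Not at hz
  obtain ⟨j, hj⟩ := hz
  have h1 : (R : ℤ) + 1 ≤ |z j| := by omega
  have h2 : (R : ℝ) + 1 ≤ |(z j : ℝ)| := by exact_mod_cast h1
  exact h2.trans (abs_le_eNorm z j)

lemma box_mono {d R S : ℕ} (h : R ≤ S) : box d R ⊆ box d S := by
  intro z hz
  rw [mem_box] at hz ⊢
  intro j
  have := hz j
  have h' : (R : ℤ) ≤ S := by exact_mod_cast h
  linarith

lemma box_zero (d : ℕ) : box d 0 = {0} := by
  ext z
  rw [mem_box, Finset.mem_singleton]
  constructor
  · intro h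
    funext j
    have := h j
    simpa using this
  · intro h
    subst h
    simp

lemma pow_sub_le (x y : ℝ) (hy : 0 ≤ y) (hxy : y ≤ x) (d : ℕ) :
    x ^ (d + 1) - y ^ (d + 1) ≤ (d + 1) * (x - y) * x ^ d := by
  induction d with
  | zero => simp
  | succ d ih =>
    have hx : 0 ≤ x := hy.trans hxy
    have h1 : x ^ (d + 1 + 1) - y ^ (d + 1 + 1) =
        x * (x ^ (d + 1) - y ^ (d + 1)) + (x - y) * y ^ (d + 1) := by ring
    rw [h1]
    have h2 : x * (x ^ (d + 1) - y ^ (d + 1)) ≤ x * ((d + 1) * (x - y) * x ^ d) :=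
      mul_le_mul_of_nonneg_left ih hx
    have h3 : (x - y) * y ^ (d + 1) ≤ (x - y) * x ^ (d + 1) :=
      mul_le_mul_of_nonneg_left (pow_le_pow_left₀ hy hxy _) (by linarith)
    push_cast
    calc _ ≤ x * ((d + 1) * (x - y) * x ^ d) + (x - y) * x ^ (d + 1) := add_le_add h2 h3
      _ = _ := by ring

lemma shell_sum (d R : ℕ) :
    ∑ z ∈ (box (d + 1) R).erase 0, (eNorm z ^ (d + 1))⁻¹ ≤
      2 * (d + 1) * 3 ^ d * (harmonic R : ℝ) := by
  induction R with
  | zero => simp [box_zero]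
  | succ R ih =>
    have hsub : (box (d + 1) R).erase 0 ⊆ (box (d + 1) (R + 1)).erase 0 :=
      Finset.erase_subset_erase _ (box_mono (Nat.le_succ R))
    rw [← Finset.sum_sdiff hsub, harmonic_succ]
    push_cast
    have hS : (box (d + 1) (R + 1)).erase 0 \ (box (d + 1) R).erase 0 ⊆
        box (d + 1) (R + 1) \ box (d + 1) R := by
      intro z hz
      simp only [Finset.mem_sdiff, Finset.mem_erase, not_and] at hz ⊢
      exact ⟨hz.1.2, hz.2 hz.1.1⟩
    have h1 : ∑ z ∈ (box (d + 1) (R + 1)).erase 0 \ (box (d + 1) R).erase 0,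
        (eNorm z ^ (d + 1))⁻¹ ≤ ∑ z ∈ box (d + 1) (R + 1) \ box (d + 1) R,
        (eNorm z ^ (d + 1))⁻¹ := by
      apply Finset.sum_le_sum_of_subset_of_nonneg hS
      intro z _ _
      have := eNorm_nonneg z
      positivity
    have h2 : ∑ z ∈ box (d + 1) (R + 1) \ box (d + 1) R, (eNorm z ^ (d + 1))⁻¹ ≤
        ∑ _z ∈ box (d + 1) (R + 1) \ box (d + 1) R, (((R : ℝ) + 1) ^ (d + 1))⁻¹ := by
      apply Finset.sum_le_sum
      intro z hz
      have h3 := eNorm_ge_of_not_mem (Finset.mem_sdiff.mp hz).2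
      apply inv_anti₀ (by positivity)
      exact pow_le_pow_left₀ (by positivity) h3 _
    have h4 : ((box (d + 1) (R + 1) \ box (d + 1) R).card : ℝ) ≤
        2 * (d + 1) * 3 ^ d * ((R : ℝ) + 1) ^ d := by
      rw [Finset.card_sdiff_of_subset (box_mono (Nat.le_succ R)), card_box, card_box]
      rw [Nat.cast_sub (Nat.pow_le_pow_left (by omega) _)]
      push_cast
      have h5 := pow_sub_le (2 * ((R : ℝ) + 1) + 1) (2 * (R : ℝ) + 1) (by positivity)
        (by linarith) d
      have h6 : (2 * ((R : ℝ) + 1) + 1) ^ d ≤ (3 * ((R : ℝ) + 1)) ^ d := by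
        apply pow_le_pow_left₀ (by positivity)
        have : (0 : ℝ) ≤ R := by positivity
        linarith
      calc _ ≤ ((d : ℝ) + 1) * (2 * ((R : ℝ) + 1) + 1 - (2 * (R : ℝ) + 1)) * (2 * ((R : ℝ) + 1) + 1) ^ d := h5
        _ = 2 * ((d : ℝ) + 1) * (2 * ((R : ℝ) + 1) + 1) ^ d := by ring
        _ ≤ 2 * ((d : ℝ) + 1) * (3 * ((R : ℝ) + 1)) ^ d := by
            apply mul_le_mul_of_nonneg_left h6 (by positivity)
        _ = _ := by rw [mul_pow]; ring
    have h7 : ∑ _z ∈ box (d + 1) (R + 1) \ box (d + 1) R, (((R : ℝ) + 1) ^ (d + 1))⁻¹ ≤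
        2 * (d + 1) * 3 ^ d * ((R : ℝ) + 1)⁻¹ := by
      rw [Finset.sum_const, nsmul_eq_mul]
      calc _ ≤ (2 * ((d : ℝ) + 1) * 3 ^ d * ((R : ℝ) + 1) ^ d) * (((R : ℝ) + 1) ^ (d + 1))⁻¹ := by
            apply mul_le_mul_of_nonneg_right h4 (by positivity)
        _ = _ := by
            have : ((R : ℝ) + 1) ≠ 0 := by positivity
            field_simp
            ring
    calc _ ≤ 2 * ((d : ℝ) + 1) * 3 ^ d * ((R : ℝ) + 1)⁻¹ +
          2 * (d + 1) * 3 ^ d * (harmonic R : ℝ) := add_le_add (h1.trans (h2.trans h7)) ih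
      _ = _ := by ring


lemma eNorm_pos {d : ℕ} {z : Fin d → ℤ} (hz : z ≠ 0) : 1 ≤ eNorm z := by
  have : z ∉ box d 0 := by rw [box_zero]; simpa using hz
  have := eNorm_ge_of_not_mem this
  simpa using this

lemma green_nonneg (d : ℕ) (μ : ℝ) (hμ : 0 ≤ μ) (z : Fin d → ℤ) : 0 ≤ green d μ z :=
  tsum_nonneg (fun n => by positivity)

/-- upper bound for the Green function summed over a box -/
lemma box_green_le (d : ℕ) (μ η ε : ℝ) (hμ : 1 ≤ μ) (hε : 0 < ε)
    (hη : Tendsto (fun z : Fin (d + 1) → ℤ => Real.log (green (d + 1) μ z) / Real.log (eNorm z))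
      cofinite (𝓝 (-(((d + 1 : ℕ) : ℝ) - 2 + η)))) :
    ∃ C : ℝ, 0 ≤ C ∧ ∀ R : ℕ, 1 ≤ R → ∑ z ∈ box (d + 1) R, green (d + 1) μ z ≤
      C * (R : ℝ) ^ (max (2 - η) 0 + ε) * (1 + Real.log R) := by
  set b : ℝ := max (2 - η) 0 + ε with hb
  have hbpos : 0 < b := by
    have := le_max_right (2 - η) (0 : ℝ)
    linarith
  have hev : ∀ᶠ z : Fin (d + 1) → ℤ in cofinite,
      Real.log (green (d + 1) μ z) / Real.log (eNorm z) < b - ((d + 1 : ℕ) : ℝ) := by
    apply hη.eventually_lt_const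
    have := le_max_left (2 - η) (0 : ℝ)
    linarith
  rw [Filter.eventually_cofinite] at hev
  set S : Finset (Fin (d + 1) → ℤ) := hev.toFinset ∪ box (d + 1) 1 with hS
  set C0 : ℝ := ∑ z ∈ S, green (d + 1) μ z with hC0
  have hμ0 : (0 : ℝ) ≤ μ := by linarith
  have hC0nn : 0 ≤ C0 := Finset.sum_nonneg (fun z _ => green_nonneg _ _ hμ0 z)
  refine ⟨C0 + ((d : ℝ) + 1) ^ b * (2 * (d + 1) * 3 ^ d), by positivity, ?_⟩
  intro R hR
  have hR' : (1 : ℝ) ≤ R := by exact_mod_cast hR
  have hlogR : 0 ≤ Real.log R := Real.log_nonneg hR'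
  -- pointwise bound
  have hpt : ∀ z ∈ (box (d + 1) R).erase 0, z ∉ S → green (d + 1) μ z ≤
      (((d : ℝ) + 1) * R) ^ b * (eNorm z ^ (d + 1))⁻¹ := by
    intro z hz hzS
    rw [hS, Finset.mem_union, not_or] at hzS
    have h1 : Real.log (green (d + 1) μ z) / Real.log (eNorm z) < b - ((d + 1 : ℕ) : ℝ) := by
      by_contra hcon
      exact hzS.1 (by simpa using hcon)
    have h2 := eNorm_ge_of_not_mem hzS.2
    have h2' : 1 < eNorm z := by push_cast at h2; linarith
    have hlog : 0 < Real.log (eNorm z) := Real.log_pos h2'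
    have hzle : eNorm z ≤ (d + 1) * R := eNorm_le_of_mem_box (Finset.mem_of_mem_erase hz)
    rcases (green_nonneg (d + 1) μ hμ0 z).eq_or_lt with h0 | h0
    · rw [← h0]; positivity
    · rw [div_lt_iff₀ hlog] at h1
      have h3 : green (d + 1) μ z ≤ eNorm z ^ (b - ((d + 1 : ℕ) : ℝ)) := by
        rw [← Real.log_le_log_iff h0 (by positivity), Real.log_rpow (by linarith)]
        exact h1.le
      calc green (d + 1) μ z ≤ eNorm z ^ (b - ((d + 1 : ℕ) : ℝ)) := h3
        _ = eNorm z ^ b * (eNorm z ^ (d + 1))⁻¹ := by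
            rw [Real.rpow_sub (by linarith), Real.rpow_natCast, div_eq_mul_inv]
        _ ≤ (((d : ℝ) + 1) * R) ^ b * (eNorm z ^ (d + 1))⁻¹ := by
            apply mul_le_mul_of_nonneg_right _ (by positivity)
            exact Real.rpow_le_rpow (by linarith) hzle hbpos.le
  have hsplit : ∑ z ∈ box (d + 1) R, green (d + 1) μ z ≤ C0 +
      ∑ z ∈ ((box (d + 1) R).erase 0), (((d : ℝ) + 1) * R) ^ b * (eNorm z ^ (d + 1))⁻¹ := by
    rw [← Finset.sum_filter_add_sum_filter_not (box (d + 1) R) (fun z => z ∈ S)]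
    apply add_le_add
    · apply Finset.sum_le_sum_of_subset_of_nonneg
      · intro z hz; exact (Finset.mem_filter.mp hz).2
      · intro z _ _; exact green_nonneg _ _ hμ0 z
    · calc ∑ z ∈ (box (d + 1) R).filter (fun z => z ∉ S), green (d + 1) μ z
          ≤ ∑ z ∈ (box (d + 1) R).filter (fun z => z ∉ S),
            (((d : ℝ) + 1) * R) ^ b * (eNorm z ^ (d + 1))⁻¹ := by
            apply Finset.sum_le_sum
            intro z hz
            have hz' := Finset.mem_filter.mp hz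
            apply hpt z _ hz'.2
            rw [Finset.mem_erase]
            refine ⟨?_, hz'.1⟩
            intro h0
            apply hz'.2
            rw [hS, Finset.mem_union]
            right
            rw [h0, mem_box]
            simp
        _ ≤ _ := by
            apply Finset.sum_le_sum_of_subset_of_nonneg
            · intro z hz
              have hz' := Finset.mem_filter.mp hz
              rw [Finset.mem_erase]
              refine ⟨?_, hz'.1⟩
              intro h0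
              apply hz'.2
              rw [hS, Finset.mem_union]
              right
              rw [h0, mem_box]
              simp
            · intro z _ _
              have := eNorm_nonneg z
              positivity
  rw [← Finset.mul_sum] at hsplit
  have hshell := shell_sum d R
  have hharm : (harmonic R : ℝ) ≤ 1 + Real.log R := harmonic_le_one_add_log R
  have hRb : (1 : ℝ) ≤ (R : ℝ) ^ b := Real.one_le_rpow hR' hbpos.le
  have hfac : (((d : ℝ) + 1) * R) ^ b = ((d : ℝ) + 1) ^ b * (R : ℝ) ^ b :=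
    Real.mul_rpow (by positivity) (by positivity)
  calc ∑ z ∈ box (d + 1) R, green (d + 1) μ z
      ≤ C0 + (((d : ℝ) + 1) * R) ^ b * ∑ z ∈ (box (d + 1) R).erase 0, (eNorm z ^ (d + 1))⁻¹ := hsplit
    _ ≤ C0 + (((d : ℝ) + 1) ^ b * (R : ℝ) ^ b) * (2 * (d + 1) * 3 ^ d * (1 + Real.log R)) := by
        rw [hfac]
        apply add_le_add le_rfl
        apply mul_le_mul_of_nonneg_left _ (by positivity)
        exact hshell.trans (mul_le_mul_of_nonneg_left hharm (by positivity))
    _ ≤ C0 * ((R : ℝ) ^ b * (1 + Real.log R)) +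
        (((d : ℝ) + 1) ^ b * (R : ℝ) ^ b) * (2 * (d + 1) * 3 ^ d * (1 + Real.log R)) := by
        apply add_le_add _ le_rfl
        have : (1 : ℝ) ≤ (R : ℝ) ^ b * (1 + Real.log R) := by nlinarith
        nlinarith
    _ = _ := by ring


/-- walks as a finite set -/
noncomputable def wset (d n : ℕ) : Finset (Fin (n + 1) → (Fin d → ℤ)) :=
  (walks_finite d n).toFinset

lemma mem_wset {d n : ℕ} {w : Fin (n + 1) → (Fin d → ℤ)} : w ∈ wset d n ↔ w ∈ walks d n := by
  simp [wset]

lemma numWalks_eq (d n : ℕ) : numWalks d n = (wset d n).card := by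
  unfold numWalks wset
  rw [Set.ncard_eq_toFinset_card _ (walks_finite d n)]

lemma numWalksTo_eq (d n : ℕ) (z : Fin d → ℤ) :
    numWalksTo d n z = ((wset d n).filter (fun w => w (Fin.last n) = z)).card := by
  unfold numWalksTo
  rw [← Set.ncard_coe_finset]
  congr 1
  ext w
  simp [mem_wset]

lemma meanSq_eq (d n : ℕ) :
    meanSq d n = (∑ w ∈ wset d n, sqNorm (w (Fin.last n))) / (numWalks d n : ℝ) := by
  unfold meanSq
  congr 1
  rw [finsum_mem_eq_finite_toFinset_sum _ (walks_finite d n)]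
  rfl

lemma sum_numWalksTo (d n : ℕ) (B : Finset (Fin d → ℤ)) :
    ∑ z ∈ B, numWalksTo d n z = ((wset d n).filter (fun w => w (Fin.last n) ∈ B)).card := by
  rw [Finset.card_eq_sum_card_fiberwise (f := fun w => w (Fin.last n)) (t := B)]
  · apply Finset.sum_congr rfl
    intro z hz
    rw [numWalksTo_eq, Finset.filter_filter]
    congr 1
    ext w
    simp only [Finset.mem_filter, and_congr_right_iff]
    intro _
    constructor
    · intro h; exact ⟨h ▸ hz, h⟩
    · intro h; exact h.2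
  · intro w hw
    simp only [Finset.coe_filter, Set.mem_ofPred_eq] at hw
    exact hw.2

/-- Markov inequality for the uniform measure -/
lemma markov (d n : ℕ) (R : ℕ) (hR : 2 * meanSq d n ≤ (R : ℝ) ^ 2) (hpos : 0 < numWalks d n) :
    (numWalks d n : ℝ) / 2 ≤ ∑ z ∈ box d R, (numWalksTo d n z : ℝ) := by
  have h1 : (∑ z ∈ box d R, (numWalksTo d n z : ℝ)) =
      (((wset d n).filter (fun w => w (Fin.last n) ∈ box d R)).card : ℝ) := by
    exact_mod_cast sum_numWalksTo d n (box d R)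
  rw [h1]
  have h2 : ((wset d n).filter (fun w => w (Fin.last n) ∈ box d R)).card +
      ((wset d n).filter (fun w => w (Fin.last n) ∉ box d R)).card = (wset d n).card :=
    Finset.card_filter_add_card_filter_not _
  have h2' : (((wset d n).filter (fun w => w (Fin.last n) ∈ box d R)).card : ℝ) +
      (((wset d n).filter (fun w => w (Fin.last n) ∉ box d R)).card : ℝ) = (numWalks d n : ℝ) := by
    rw [numWalks_eq]; exact_mod_cast h2
  have hN : (0 : ℝ) < numWalks d n := by exact_mod_cast hpos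
  have h3 : ((((wset d n).filter (fun w => w (Fin.last n) ∉ box d R)).card : ℝ)) *
      ((R : ℝ) + 1) ^ 2 ≤ ∑ w ∈ wset d n, sqNorm (w (Fin.last n)) := by
    calc _ = ∑ _w ∈ (wset d n).filter (fun w => w (Fin.last n) ∉ box d R), ((R : ℝ) + 1) ^ 2 := by
          rw [Finset.sum_const, nsmul_eq_mul]
      _ ≤ ∑ w ∈ (wset d n).filter (fun w => w (Fin.last n) ∉ box d R),
            sqNorm (w (Fin.last n)) := by
          apply Finset.sum_le_sum
          intro w hw
          have h4 := eNorm_ge_of_not_mem (Finset.mem_filter.mp hw).2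
          have h5 : eNorm (w (Fin.last n)) ^ 2 = sqNorm (w (Fin.last n)) :=
            Real.sq_sqrt (sqNorm_nonneg _)
          rw [← h5]
          exact pow_le_pow_left₀ (by positivity) h4 2
      _ ≤ _ := by
          apply Finset.sum_le_sum_of_subset_of_nonneg (Finset.filter_subset _ _)
          intro w _ _
          exact sqNorm_nonneg _
  have h4 : ∑ w ∈ wset d n, sqNorm (w (Fin.last n)) = meanSq d n * numWalks d n := by
    rw [meanSq_eq]; field_simp
  rw [h4] at h3
  have hR0 : (0 : ℝ) ≤ R := by positivity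
  have h5 : ((R : ℝ)) ^ 2 < ((R : ℝ) + 1) ^ 2 := by nlinarith
  have h6 : ((((wset d n).filter (fun w => w (Fin.last n) ∉ box d R)).card : ℝ)) ≤
      (numWalks d n : ℝ) / 2 := by
    by_contra hcon
    push Not at hcon
    have : (numWalks d n : ℝ) / 2 * ((R : ℝ) + 1) ^ 2 <
        ((((wset d n).filter (fun w => w (Fin.last n) ∉ box d R)).card : ℝ)) * ((R : ℝ) + 1) ^ 2 :=
      mul_lt_mul_of_pos_right hcon (by positivity)
    nlinarith
  linarith

lemma one_le_meanSq (d n : ℕ) (hn : 1 ≤ n) : 1 ≤ meanSq (d + 1) n := by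
  rw [meanSq_eq]
  have hN : (0 : ℝ) < numWalks (d + 1) n := by exact_mod_cast numWalks_pos d n
  rw [le_div_iff₀ hN, one_mul, numWalks_eq]
  calc ((wset (d + 1) n).card : ℝ) = ∑ _w ∈ wset (d + 1) n, (1 : ℝ) := by simp
    _ ≤ _ := by
      apply Finset.sum_le_sum
      intro w hw
      rw [mem_wset] at hw
      have hne : w (Fin.last n) ≠ 0 := by
        intro h0
        have h1 := hw.1
        have := hw.2.1 (h0.trans h1.symm)
        have h2 : (Fin.last n).1 = (0 : Fin (n + 1)).1 := by rw [this]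
        simp at h2
        omega
      have h5 : eNorm (w (Fin.last n)) ^ 2 = sqNorm (w (Fin.last n)) :=
        Real.sq_sqrt (sqNorm_nonneg _)
      rw [← h5]
      have := eNorm_pos hne
      nlinarith

/-- power comparison -/
lemma exponent_le (x y C : ℝ)
    (h : ∀ᶠ N : ℕ in atTop, (N : ℝ) ^ x ≤ C * (N : ℝ) ^ y) : x ≤ y := by
  by_contra hcon
  push Not at hcon
  have hpos : 0 < x - y := by linarith
  have ht : Tendsto (fun N : ℕ => (N : ℝ) ^ (x - y)) atTop atTop :=
    (tendsto_rpow_atTop hpos).comp tendsto_natCast_atTop_atTop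
  have h1 := ht.eventually_gt_atTop C
  obtain ⟨N, ⟨hN1, hN2⟩, hN3⟩ := ((h.and h1).and (eventually_ge_atTop 1)).exists
  have hNpos : (0 : ℝ) < N := by exact_mod_cast hN3
  rw [Real.rpow_sub hNpos] at hN2
  rw [lt_div_iff₀ (by positivity)] at hN2
  linarith


/-- The exponent gamma exists: log (C_n / mu^n) / log n tends to gamma - 1. -/
def HasGamma (d : ℕ) (μ γ : ℝ) : Prop :=
  Tendsto (fun n : ℕ => Real.log ((numWalks d n : ℝ) / μ ^ n) / Real.log n) atTop (𝓝 (γ - 1))

/-- The exponent nu exists: log of the mean square displacement over log n tends to 2 nu. -/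
def HasNu (d : ℕ) (ν : ℝ) : Prop :=
  Tendsto (fun n : ℕ => Real.log (meanSq d n) / Real.log n) atTop (𝓝 (2 * ν))

/-- The exponent eta exists: the critical two point function is finite everywhere and
log G(z) / log |z| tends to -(d - 2 + eta) as |z| tends to infinity. -/
def HasEta (d : ℕ) (μ η : ℝ) : Prop :=
  (∀ z : Fin d → ℤ, Summable (fun n : ℕ => (numWalksTo d n z : ℝ) / μ ^ n)) ∧
  Tendsto (fun z : Fin d → ℤ => Real.log (green d μ z) / Real.log (eNorm z))
    cofinite (𝓝 (-((d : ℝ) - 2 + η)))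

lemma key (d : ℕ) (μ γ ν η ε : ℝ) (hε : 0 < ε)
    (hμ : Tendsto (fun n : ℕ => (numWalks (d + 1) n : ℝ) ^ ((1 : ℝ) / (n : ℝ))) atTop (𝓝 μ))
    (hγ : HasGamma (d + 1) μ γ) (hν : HasNu (d + 1) ν) (hη : HasEta (d + 1) μ η)
    (hγ1 : 1 ≤ γ) (hν0 : 0 ≤ ν) :
    γ - ε ≤ (ν + ε) * (max (2 - η) 0 + ε + ε) := by
  obtain ⟨hμ1, hμpow⟩ := mu_pow_le d μ hμ
  obtain ⟨C, hC0, hC⟩ := box_green_le d μ η ε hμ1 hε hη.2
  set b : ℝ := max (2 - η) 0 + ε with hb
  have hbpos : 0 < b := by
    have := le_max_right (2 - η) (0 : ℝ)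
    linarith
  have hμ0 : 0 < μ := by linarith
  -- lower bound for the counts
  have hA : ∀ᶠ n : ℕ in atTop, (n : ℝ) ^ (γ - 1 - ε) ≤ (numWalks (d + 1) n : ℝ) / μ ^ n := by
    have h1 : ∀ᶠ n : ℕ in atTop, γ - 1 - ε <
        Real.log ((numWalks (d + 1) n : ℝ) / μ ^ n) / Real.log n := by
      apply hγ.eventually_const_lt
      linarith
    filter_upwards [h1, eventually_ge_atTop 2] with n hn hn2
    have hn2' : (2 : ℝ) ≤ n := by exact_mod_cast hn2
    have hlog : 0 < Real.log n := Real.log_pos (by linarith)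
    have hpos : 0 < (numWalks (d + 1) n : ℝ) / μ ^ n := by
      have : (0 : ℝ) < numWalks (d + 1) n := by exact_mod_cast numWalks_pos d n
      positivity
    rw [lt_div_iff₀ hlog] at hn
    rw [← Real.log_le_log_iff (by positivity) hpos, Real.log_rpow (by linarith)]
    exact hn.le
  have hB : ∀ᶠ n : ℕ in atTop, 2 * meanSq (d + 1) n ≤ ((n : ℝ) ^ (ν + ε)) ^ 2 := by
    have h1 : ∀ᶠ n : ℕ in atTop, Real.log (meanSq (d + 1) n) / Real.log n < 2 * ν + ε := by
      apply hν.eventually_lt_const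
      linarith
    have h2 : ∀ᶠ n : ℕ in atTop, (2 : ℝ) ≤ (n : ℝ) ^ ε :=
      ((tendsto_rpow_atTop hε).comp tendsto_natCast_atTop_atTop).eventually_ge_atTop 2
    filter_upwards [h1, h2, eventually_ge_atTop 2] with n hn hn' hn2
    have hn2' : (2 : ℝ) ≤ n := by exact_mod_cast hn2
    have hlog : 0 < Real.log n := Real.log_pos (by linarith)
    have hm := one_le_meanSq d n (by omega)
    rw [div_lt_iff₀ hlog] at hn
    have h3 : meanSq (d + 1) n ≤ (n : ℝ) ^ (2 * ν + ε) := by
      rw [← Real.log_le_log_iff (by linarith) (by positivity), Real.log_rpow (by linarith)]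
      exact hn.le
    have h4 : ((n : ℝ) ^ (ν + ε)) ^ 2 = (n : ℝ) ^ ε * (n : ℝ) ^ (2 * ν + ε) := by
      rw [← Real.rpow_add (by linarith), ← Real.rpow_natCast, ← Real.rpow_mul (by linarith)]
      congr 1
      push_cast
      ring
    rw [h4]
    have : 0 ≤ (n : ℝ) ^ (2 * ν + ε) := by positivity
    nlinarith
  obtain ⟨n0, hn0⟩ := (hA.and hB).exists_forall_of_atTop
  -- constants
  set K : ℝ := 2 * (2 : ℝ) ^ ε * (C * (1 + 1 / ε) * ((2 : ℝ) * 2 ^ (ν + ε)) ^ (b + ε)) with hK
  apply exponent_le (γ - ε) ((ν + ε) * (b + ε)) K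
  filter_upwards [eventually_ge_atTop n0, eventually_ge_atTop 2] with N hN hN2
  have hN2' : (2 : ℝ) ≤ N := by exact_mod_cast hN2
  have hNpos : (0 : ℝ) < N := by linarith
  have hνε : 0 < ν + ε := by linarith
  set x : ℝ := (2 * (N : ℝ)) ^ (ν + ε) with hx
  have hx1 : 1 ≤ x := Real.one_le_rpow (by linarith) hνε.le
  set R : ℕ := ⌈x⌉₊ with hR
  have hxR : x ≤ R := Nat.le_ceil x
  have hRx : (R : ℝ) ≤ 2 * x := by
    have := Nat.ceil_lt_add_one (by linarith : 0 ≤ x)
    linarith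
  have hR1 : 1 ≤ R := by
    have : (0 : ℝ) < R := by linarith
    exact_mod_cast this
  have hR1' : (1 : ℝ) ≤ R := by exact_mod_cast hR1
  -- the sum over the window
  have hwin : ∀ n ∈ Finset.Ico N (2 * N), (1 / 2 : ℝ) * ((N : ℝ) ^ (γ - 1) * (2 * (N : ℝ)) ^ (-ε)) ≤
      ∑ z ∈ box (d + 1) R, (numWalksTo (d + 1) n z : ℝ) / μ ^ n := by
    intro n hn
    rw [Finset.mem_Ico] at hn
    obtain ⟨ha, hb'⟩ := hn0 n (by omega)
    have hnN : (N : ℝ) ≤ n := by exact_mod_cast hn.1
    have hn2N : (n : ℝ) ≤ 2 * N := by exact_mod_cast hn.2.le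
    have hnpos : (0 : ℝ) < n := by linarith
    have h1 : (n : ℝ) ^ (ν + ε) ≤ x := Real.rpow_le_rpow hnpos.le hn2N hνε.le
    have h2 : 2 * meanSq (d + 1) n ≤ (R : ℝ) ^ 2 := by
      refine hb'.trans ?_
      apply pow_le_pow_left₀ (by positivity)
      exact h1.trans hxR
    have h3 := markov (d + 1) n R h2 (numWalks_pos d n)
    rw [← Finset.sum_div, le_div_iff₀ (by positivity)]
    refine le_trans ?_ h3
    have h4 : (N : ℝ) ^ (γ - 1) * (2 * (N : ℝ)) ^ (-ε) ≤ (n : ℝ) ^ (γ - 1 - ε) := by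
      rw [show γ - 1 - ε = (γ - 1) + (-ε) by ring, Real.rpow_add hnpos]
      apply mul_le_mul
      · exact Real.rpow_le_rpow hNpos.le hnN (by linarith)
      · exact Real.rpow_le_rpow_of_nonpos hnpos hn2N (by linarith)
      · positivity
      · positivity
    have h5 := h4.trans ha
    rw [le_div_iff₀ (by positivity)] at h5
    linarith
  have hsum : (N : ℝ) * ((1 / 2 : ℝ) * ((N : ℝ) ^ (γ - 1) * (2 * (N : ℝ)) ^ (-ε))) ≤
      ∑ z ∈ box (d + 1) R, green (d + 1) μ z := by
    calc _ = ∑ _n ∈ Finset.Ico N (2 * N), (1 / 2 : ℝ) * ((N : ℝ) ^ (γ - 1) * (2 * (N : ℝ)) ^ (-ε)) := by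
          rw [Finset.sum_const, nsmul_eq_mul, Nat.card_Ico]
          congr 1
          have : 2 * N - N = N := by omega
          rw [this]
      _ ≤ ∑ n ∈ Finset.Ico N (2 * N), ∑ z ∈ box (d + 1) R, (numWalksTo (d + 1) n z : ℝ) / μ ^ n :=
          Finset.sum_le_sum hwin
      _ = ∑ z ∈ box (d + 1) R, ∑ n ∈ Finset.Ico N (2 * N), (numWalksTo (d + 1) n z : ℝ) / μ ^ n :=
          Finset.sum_comm
      _ ≤ _ := by
          apply Finset.sum_le_sum
          intro z _
          exact (hη.1 z).sum_le_tsum _ (fun n _ => by positivity)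
  have hup := hC R hR1
  have hlogR : 1 + Real.log R ≤ (1 + 1 / ε) * (R : ℝ) ^ ε := by
    have h1 := Real.log_le_rpow_div (x := (R : ℝ)) (by linarith) hε
    have h2 : (1 : ℝ) ≤ (R : ℝ) ^ ε := Real.one_le_rpow hR1' hε.le
    have h3 : (R : ℝ) ^ ε / ε = 1 / ε * (R : ℝ) ^ ε := by ring
    rw [h3] at h1
    linarith
  have hup2 : ∑ z ∈ box (d + 1) R, green (d + 1) μ z ≤
      C * (1 + 1 / ε) * ((2 : ℝ) * 2 ^ (ν + ε)) ^ (b + ε) * (N : ℝ) ^ ((ν + ε) * (b + ε)) := by
    calc _ ≤ C * (R : ℝ) ^ b * (1 + Real.log R) := hup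
      _ ≤ C * (R : ℝ) ^ b * ((1 + 1 / ε) * (R : ℝ) ^ ε) := by
          apply mul_le_mul_of_nonneg_left hlogR (by positivity)
      _ = C * (1 + 1 / ε) * (R : ℝ) ^ (b + ε) := by
          have h8 : (R : ℝ) ^ (b + ε) = (R : ℝ) ^ b * (R : ℝ) ^ ε :=
            Real.rpow_add (by linarith) b ε
          rw [h8]; ring
      _ ≤ C * (1 + 1 / ε) * ((2 : ℝ) * x) ^ (b + ε) := by
          apply mul_le_mul_of_nonneg_left _ (by positivity)
          exact Real.rpow_le_rpow (by positivity) hRx (by linarith)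
      _ = C * (1 + 1 / ε) * (((2 : ℝ) * 2 ^ (ν + ε)) ^ (b + ε) * (N : ℝ) ^ ((ν + ε) * (b + ε))) := by
          congr 1
          rw [hx, Real.mul_rpow (by norm_num) hNpos.le, ← mul_assoc,
            Real.mul_rpow (by positivity) (by positivity), ← Real.rpow_mul hNpos.le]
      _ = _ := by ring
  have hfin := hsum.trans hup2
  have h6 : (N : ℝ) * ((1 / 2 : ℝ) * ((N : ℝ) ^ (γ - 1) * (2 * (N : ℝ)) ^ (-ε))) =
      (2 * (2 : ℝ) ^ ε)⁻¹ * (N : ℝ) ^ (γ - ε) := by
    rw [Real.mul_rpow (by norm_num) hNpos.le, Real.rpow_neg (by norm_num : (0:ℝ) ≤ 2)]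
    have : (N : ℝ) ^ (γ - ε) = (N : ℝ) * (N : ℝ) ^ (γ - 1) * (N : ℝ) ^ (-ε) := by
      rw [show γ - ε = 1 + (γ - 1) + (-ε) by ring, Real.rpow_add hNpos, Real.rpow_add hNpos,
        Real.rpow_one]
    rw [this, mul_inv]
    ring
  rw [h6] at hfin
  have h7 : (0 : ℝ) < 2 * (2 : ℝ) ^ ε := by positivity
  rw [inv_mul_le_iff₀ h7] at hfin
  calc (N : ℝ) ^ (γ - ε) ≤ _ := hfin
    _ = _ := by rw [hK]; ring

/-- Fisher inequality for the self-avoiding walk: if the exponents exist then gamma is at most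
nu times (2 - eta). -/
theorem result (d : ℕ) (hd : 1 ≤ d) (μ γ ν η : ℝ)
    (hμ : Tendsto (fun n : ℕ => (numWalks d n : ℝ) ^ ((1 : ℝ) / (n : ℝ))) atTop (𝓝 μ))
    (hγ : HasGamma d μ γ) (hν : HasNu d ν) (hη : HasEta d μ η) :
    γ ≤ ν * (2 - η) := by
  obtain ⟨d, rfl⟩ : ∃ d', d = d' + 1 := ⟨d - 1, by omega⟩
  obtain ⟨hμ1, hμpow⟩ := mu_pow_le d μ hμ
  have hμ0 : 0 < μ := by linarith
  have hγ1 : 1 ≤ γ := by
    have : 0 ≤ γ - 1 := by
      apply ge_of_tendsto hγ
      filter_upwards [eventually_ge_atTop 1] with n hn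
      apply div_nonneg
      · apply Real.log_nonneg
        rw [le_div_iff₀ (by positivity), one_mul]
        exact hμpow n hn
      · exact Real.log_nonneg (by exact_mod_cast hn)
    linarith
  have hν0 : 0 ≤ ν := by
    have : 0 ≤ 2 * ν := by
      apply ge_of_tendsto hν
      filter_upwards [eventually_ge_atTop 1] with n hn
      apply div_nonneg
      · exact Real.log_nonneg (one_le_meanSq d n hn)
      · exact Real.log_nonneg (by exact_mod_cast hn)
    linarith
  have hmain : γ ≤ ν * max (2 - η) 0 := by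
    have hlim : Tendsto (fun ε : ℝ => (ν + ε) * (max (2 - η) 0 + ε + ε) - (γ - ε)) (𝓝[>] 0)
        (𝓝 ((ν + 0) * (max (2 - η) 0 + 0 + 0) - (γ - 0))) := by
      apply Tendsto.mono_left _ nhdsWithin_le_nhds
      apply Continuous.tendsto
      fun_prop
    have h0 : 0 ≤ (ν + 0) * (max (2 - η) 0 + 0 + 0) - (γ - 0) := by
      apply ge_of_tendsto hlim
      filter_upwards [self_mem_nhdsWithin] with ε hε
      have := key d μ γ ν η ε hε hμ hγ hν hη hγ1 hν0
      linarith
    linarith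
  rcases le_or_gt (2 - η) 0 with h | h
  · rw [max_eq_right h] at hmain
    linarith
  · rwa [max_eq_left h.le] at hmain

end Pool.Agent.Results.MP_5e6e69_pr.FisherUpper
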